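import Mathlib

/-!
# The family of iterated primitives and derivatives
-/

set_option autoImplicit false
set_option linter.unusedSectionVars false

open Complex MeasureTheory Metric Set Filter Topology ComplexConjugate

namespace Pool.Agent.E8helper97.FV

lemma circ_mem {r : ℝ} (hr : 1 < r) (t : ℝ) : exp ((t : ℂ) * I) ∈ ball (0 : ℂ) r := by
  rw [mem_ball_zero_iff, Complex.norm_exp_ofReal_mul_I]
  exact hr

lemma circ_exp (t : ℝ) : HasDerivAt (fun t : ℝ => exp ((t : ℂ) * I)) (I * exp ((t : ℂ) * I)) t := by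
  have h1 : HasDerivAt (fun z : ℂ => exp (z * I)) (exp ((t : ℂ) * I) * (1 * I)) (t : ℂ) :=
    ((hasDerivAt_id (t : ℂ)).mul_const I).cexp
  exact (h1.comp_ofReal).congr_deriv (by ring)

lemma circ_deriv {r : ℝ} {F : ℂ → ℂ} (hF : DifferentiableOn ℂ F (ball 0 r)) (hr : 1 < r) (t : ℝ) :
    HasDerivAt (fun t : ℝ => F (exp ((t : ℂ) * I)))
      (deriv F (exp ((t : ℂ) * I)) * (I * exp ((t : ℂ) * I))) t := by
  have h2 : HasDerivAt F (deriv F (exp ((t : ℂ) * I))) (exp ((t : ℂ) * I)) :=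
    (hF.differentiableAt (isOpen_ball.mem_nhds (circ_mem hr t))).hasDerivAt
  exact HasDerivAt.comp (h₂ := F) t h2 (circ_exp t)

lemma eq_of_deriv {f g f' : ℝ → ℂ} (hf : ∀ t, HasDerivAt f (f' t) t)
    (hg : ∀ t, HasDerivAt g (f' t) t) (h0 : f 0 = g 0) (t : ℝ) : f t = g t := by
  have h1 : ∀ t, HasDerivAt (fun t => f t - g t) 0 t := fun t =>
    ((hf t).sub (hg t)).congr_deriv (sub_self _)
  have h2 : f t - g t = f 0 - g 0 :=
    is_const_of_deriv_eq_zero (f := fun t => f t - g t) (fun t => (h1 t).differentiableAt)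
      (fun t => (h1 t).deriv) t 0
  rw [h0, sub_self] at h2
  exact sub_eq_zero.1 h2

/-- holomorphic functions on a disc -/
abbrev Hol (r : ℝ) := {F : ℂ → ℂ // DifferentiableOn ℂ F (ball 0 r)}

lemma prim {r : ℝ} (F : ℂ → ℂ) (hF : DifferentiableOn ℂ F (ball 0 r)) (c : ℂ) :
    ∃ G : Hol r, G.1 1 = c ∧ ∀ w ∈ ball (0 : ℂ) r, HasDerivAt G.1 (F w) w := by
  obtain ⟨g, hg1, hg2⟩ := (hF.isExactOn_ball).with_val_at 1 c
  exact ⟨⟨g, fun w hw => (hg2 w hw).differentiableAt.differentiableWithinAt⟩, hg1, hg2⟩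

section
variable {r : ℝ} {φ : ℂ → ℂ} (hφ : DifferentiableOn ℂ φ (ball 0 r))

include hφ in
lemma dmul (F : Hol r) : DifferentiableOn ℂ (fun w => F.1 w * deriv φ w) (ball 0 r) :=
  F.2.mul (hφ.deriv isOpen_ball)

/-- primitives -/
noncomputable def PP (M : Hol r) : ℕ → Hol r
  | 0 => M
  | n + 1 => (prim _ (dmul hφ (PP M n)) (if n = 0 then 1 else 0)).choose

lemma PP_one (M : Hol r) (n : ℕ) : (PP hφ M (n + 1)).1 1 = if n = 0 then 1 else 0 :=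
  (prim _ (dmul hφ (PP hφ M n)) (if n = 0 then 1 else 0)).choose_spec.1

lemma PP_deriv (M : Hol r) (n : ℕ) (w : ℂ) (hw : w ∈ ball (0 : ℂ) r) :
    HasDerivAt (PP hφ M (n + 1)).1 ((PP hφ M n).1 w * deriv φ w) w :=
  (prim _ (dmul hφ (PP hφ M n)) (if n = 0 then 1 else 0)).choose_spec.2 w hw

/-- derivatives -/
noncomputable def QQ (φ : ℂ → ℂ) (M : ℂ → ℂ) : ℕ → ℂ → ℂ
  | 0 => M
  | n + 1 => fun w => deriv (QQ φ M n) w / deriv φ w

include hφ in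
lemma QQ_diff (hnz : ∀ w ∈ ball (0 : ℂ) r, deriv φ w ≠ 0) (M : Hol r) (n : ℕ) :
    DifferentiableOn ℂ (QQ φ M.1 n) (ball 0 r) := by
  induction n with
  | zero => exact M.2
  | succ n ih => exact (ih.deriv isOpen_ball).div (hφ.deriv isOpen_ball) hnz

/-- the whole family -/
noncomputable def NN (M : Hol r) (m : ℤ) : ℂ → ℂ :=
  if 0 ≤ m + 2 then (PP hφ M (m + 2).toNat).1 else QQ φ M.1 (-2 - m).toNat

lemma NN_P (M : Hol r) (n : ℕ) : NN hφ M ((n : ℤ) - 2) = (PP hφ M n).1 := by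
  unfold NN
  rw [if_pos (by omega)]
  congr 3
  omega

lemma NN_Q (M : Hol r) (n : ℕ) : NN hφ M (-2 - (n : ℤ)) = QQ φ M.1 n := by
  unfold NN
  rcases n with _ | n
  · rw [if_pos (by norm_num)]
    rfl
  · rw [if_neg (by push_cast; omega)]
    congr 1
    push_cast
    omega

lemma cases_m (m : ℤ) : (∃ n : ℕ, m = (n : ℤ) - 2) ∨ ∃ n : ℕ, m = -2 - ((n + 1 : ℕ) : ℤ) := by
  rcases le_or_gt 0 (m + 2) with h | h
  · exact Or.inl ⟨(m + 2).toNat, by omega⟩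
  · exact Or.inr ⟨(-3 - m).toNat, by push_cast; omega⟩

end

theorem k3_core (φ : ℂ → ℂ) (r a : ℝ) (hr : 1 < r) (hφ : DifferentiableOn ℂ φ (ball 0 r))
    (hnz : ∀ w ∈ ball (0 : ℂ) r, deriv φ w ≠ 0) (h : ℤ → ℝ → ℂ) (k0 : ℤ → ℝ → ℂ) (M0 : ℂ → ℂ)
    (hM0 : DifferentiableOn ℂ M0 (ball 0 r))
    (hM : ∀ t : ℝ, M0 (exp ((t : ℂ) * I)) = (a : ℂ) * conj (φ (exp ((t : ℂ) * I))) + h (-2) t)
    (hder : ∀ (m : ℤ) (t : ℝ), HasDerivAt (h m)
      (I * exp ((t : ℂ) * I) * deriv φ (exp ((t : ℂ) * I)) * (k0 m t + h (m - 1) t)) t)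
    (h0 : ∀ m, h m 0 = 0) (kpos : ∀ m : ℤ, 0 < m → ∀ t, k0 m t = 0) (kz : ∀ t, k0 0 t = 1)
    (k1 : ∀ t, k0 (-1) t = (a : ℂ) * conj (φ (exp ((t : ℂ) * I))))
    (k2 : ∀ t, k0 (-2) t = ((a : ℂ) * conj (φ (exp ((t : ℂ) * I)))) ^ 2 / 2)
    (hb : ∃ C : ℝ, ∀ m : ℤ, 0 ≤ m → ∀ t : ℝ, |t| ≤ Real.pi → ‖h m t‖ ≤ C) :
    ∃ N : ℤ → ℂ → ℂ, (∀ m, DifferentiableOn ℂ (N m) (ball 0 r)) ∧
    (∀ m, ∀ w ∈ ball (0 : ℂ) r, deriv (N (m + 1)) w = N m w * deriv φ w) ∧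
    (∀ m : ℤ, 0 ≤ m → ∀ t : ℝ, N m (exp ((t : ℂ) * I)) = h m t) ∧
    (∀ t : ℝ, N (-1) (exp ((t : ℂ) * I)) = 1 + h (-1) t) ∧
    (∀ t : ℝ, N (-2) (exp ((t : ℂ) * I)) =
      (a : ℂ) * conj (φ (exp ((t : ℂ) * I))) + h (-2) t) ∧
    (∀ t : ℝ, N (-3) (exp ((t : ℂ) * I)) =
      (a : ℂ) * (conj (I * exp ((t : ℂ) * I) * deriv φ (exp ((t : ℂ) * I))) /
        (I * exp ((t : ℂ) * I) * deriv φ (exp ((t : ℂ) * I)))) +
      ((a : ℂ) * conj (φ (exp ((t : ℂ) * I)))) ^ 2 / 2 + h (-3) t) ∧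
    (∃ C : ℝ, ∀ m : ℤ, 0 ≤ m → ∀ w ∈ closedBall (0 : ℂ) 1, ‖N m w‖ ≤ C) := by
  have e0 : exp (((0 : ℝ) : ℂ) * I) = 1 := by simp
  have hmem := circ_mem hr
  -- values on the circle
  have c0 : ∀ t : ℝ, (PP hφ ⟨M0, hM0⟩ 0).1 (exp ((t : ℂ) * I)) =
      (a : ℂ) * conj (φ (exp ((t : ℂ) * I))) + h (-2) t := hM
  have c1 : ∀ t : ℝ, (PP hφ ⟨M0, hM0⟩ 1).1 (exp ((t : ℂ) * I)) = 1 + h (-1) t := by
    refine eq_of_deriv (f := fun t : ℝ => (PP hφ ⟨M0, hM0⟩ 1).1 (exp ((t : ℂ) * I)))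
      (g := fun t : ℝ => 1 + h (-1) t) (fun t => ?_) (fun t => (hder (-1) t).const_add 1) ?_
    · refine (circ_deriv (PP hφ ⟨M0, hM0⟩ 1).2 hr t).congr_deriv ?_
      rw [(PP_deriv hφ ⟨M0, hM0⟩ 0 _ (hmem t)).deriv, c0, k1]
      norm_num
      ring
    · rw [e0, h0]
      have := PP_one hφ ⟨M0, hM0⟩ 0
      rw [if_pos rfl] at this
      rw [this, add_zero]
  have c2 : ∀ t : ℝ, (PP hφ ⟨M0, hM0⟩ 2).1 (exp ((t : ℂ) * I)) = h 0 t := by
    refine eq_of_deriv (f := fun t : ℝ => (PP hφ ⟨M0, hM0⟩ 2).1 (exp ((t : ℂ) * I)))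
      (g := fun t : ℝ => h 0 t) (fun t => ?_) (fun t => (hder 0 t)) ?_
    · refine (circ_deriv (PP hφ ⟨M0, hM0⟩ 2).2 hr t).congr_deriv ?_
      rw [(PP_deriv hφ ⟨M0, hM0⟩ 1 _ (hmem t)).deriv, c1, kz]
      norm_num
      ring
    · rw [e0, h0]
      have := PP_one hφ ⟨M0, hM0⟩ 1
      rw [if_neg one_ne_zero] at this
      exact this
  have cn : ∀ (n : ℕ) (t : ℝ), (PP hφ ⟨M0, hM0⟩ (n + 2)).1 (exp ((t : ℂ) * I)) = h n t := by
    intro n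
    induction n with
    | zero => exact c2
    | succ n ih =>
      refine eq_of_deriv (f := fun t : ℝ => (PP hφ ⟨M0, hM0⟩ (n + 1 + 2)).1 (exp ((t : ℂ) * I)))
        (g := fun t : ℝ => h ((n + 1 : ℕ) : ℤ) t) (fun t => ?_) (fun t => (hder _ t)) ?_
      · refine (circ_deriv (PP hφ ⟨M0, hM0⟩ (n + 1 + 2)).2 hr t).congr_deriv ?_
        rw [(PP_deriv hφ ⟨M0, hM0⟩ (n + 2) _ (hmem t)).deriv, ih, kpos _ (by positivity)]
        have e1 : ((n + 1 : ℕ) : ℤ) - 1 = n := by push_cast; ring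
        rw [e1]
        ring
      · rw [e0, h0]
        have := PP_one hφ ⟨M0, hM0⟩ (n + 2)
        rw [if_neg (by omega)] at this
        exact this
  have cm : ∀ m : ℤ, 0 ≤ m → ∀ t : ℝ, NN hφ ⟨M0, hM0⟩ m (exp ((t : ℂ) * I)) = h m t := by
    intro m hm t
    obtain ⟨n, rfl⟩ := Int.eq_ofNat_of_zero_le hm
    have := NN_P hφ ⟨M0, hM0⟩ (n + 2)
    have e1 : ((n + 2 : ℕ) : ℤ) - 2 = n := by push_cast; ring
    rw [e1] at this
    rw [this]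
    exact cn n t
  have hD : ∀ m, DifferentiableOn ℂ (NN hφ ⟨M0, hM0⟩ m) (ball 0 r) := by
    intro m
    rcases cases_m m with ⟨n, rfl⟩ | ⟨n, rfl⟩
    · rw [NN_P]
      exact (PP hφ ⟨M0, hM0⟩ n).2
    · rw [NN_Q]
      exact QQ_diff hφ hnz ⟨M0, hM0⟩ _
  have eN1 : NN hφ ⟨M0, hM0⟩ (-1) = (PP hφ ⟨M0, hM0⟩ 1).1 := NN_P hφ ⟨M0, hM0⟩ 1
  have eN2 : NN hφ ⟨M0, hM0⟩ (-2) = (PP hφ ⟨M0, hM0⟩ 0).1 := NN_P hφ ⟨M0, hM0⟩ 0
  have eN3 : NN hφ ⟨M0, hM0⟩ (-3) = QQ φ M0 1 := NN_Q hφ ⟨M0, hM0⟩ 1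
  refine ⟨NN hφ ⟨M0, hM0⟩, hD, ?_, cm, ?_, ?_, ?_, ?_⟩
  · intro m w hw
    rcases cases_m m with ⟨n, rfl⟩ | ⟨n, rfl⟩
    · have e1 : (n : ℤ) - 2 + 1 = ((n + 1 : ℕ) : ℤ) - 2 := by push_cast; ring
      rw [e1, NN_P, NN_P, (PP_deriv hφ ⟨M0, hM0⟩ n w hw).deriv]
    · have e1 : -2 - ((n + 1 : ℕ) : ℤ) + 1 = -2 - (n : ℤ) := by push_cast; ring
      rw [e1, NN_Q, NN_Q]
      change _ = deriv (QQ φ M0 n) w / deriv φ w * deriv φ w
      rw [div_mul_cancel₀ _ (hnz w hw)]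
  · intro t
    rw [eN1]
    exact c1 t
  · intro t
    rw [eN2]
    exact c0 t
  · intro t
    rw [eN3]
    change deriv M0 (exp ((t : ℂ) * I)) / deriv φ (exp ((t : ℂ) * I)) = _
    -- differentiate `M0` on the circle in two ways
    have d1 := circ_deriv hM0 hr t
    have d2 : HasDerivAt (fun t : ℝ => M0 (exp ((t : ℂ) * I)))
        ((a : ℂ) * conj (I * exp ((t : ℂ) * I) * deriv φ (exp ((t : ℂ) * I))) +
          I * exp ((t : ℂ) * I) * deriv φ (exp ((t : ℂ) * I)) * (k0 (-2) t + h (-2 - 1) t)) t := by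
      have e1 : (fun t : ℝ => M0 (exp ((t : ℂ) * I))) = fun t : ℝ =>
          (a : ℂ) * conj (φ (exp ((t : ℂ) * I))) + h (-2) t := funext hM
      rw [e1]
      have d3 : HasDerivAt (fun t : ℝ => conj (φ (exp ((t : ℂ) * I))))
          (conj (I * exp ((t : ℂ) * I) * deriv φ (exp ((t : ℂ) * I)))) t := by
        have d4 := (circ_deriv hφ hr t).star
        refine d4.congr_deriv ?_
        change conj (deriv φ (exp ((t : ℂ) * I)) * (I * exp ((t : ℂ) * I))) = _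
        congr 1
        ring
      exact (d3.const_mul _).add (hder (-2) t)
    have e2 := d1.unique d2
    have hφ0 := hnz _ (hmem t)
    have hE : I * exp ((t : ℂ) * I) ≠ 0 := mul_ne_zero I_ne_zero (exp_ne_zero _)
    rw [k2] at e2
    have e3 : h (-3) t = h (-2 - 1) t := rfl
    rw [e3]
    generalize conj (I * exp ((t : ℂ) * I) * deriv φ (exp ((t : ℂ) * I))) = Z at *
    generalize deriv M0 (exp ((t : ℂ) * I)) = D at *
    generalize deriv φ (exp ((t : ℂ) * I)) = D' at *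
    generalize I * exp ((t : ℂ) * I) = J at *
    have e4 : D = (a * Z + J * D' * (((a : ℂ) * conj (φ (exp ((t : ℂ) * I)))) ^ 2 / 2 + h (-2 - 1) t)) / J := by
      rw [eq_div_iff hE]
      exact e2
    rw [e4]
    field_simp
    ring
  · obtain ⟨C, hC⟩ := hb
    refine ⟨C, fun m hm w hw => ?_⟩
    have hDC : DiffContOnCl ℂ (NN hφ ⟨M0, hM0⟩ m) (ball 0 1) := by
      refine ⟨(hD m).mono (ball_subset_ball hr.le), ?_⟩
      refine ((hD m).continuousOn).mono ?_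
      rw [closure_ball _ one_ne_zero]
      exact closedBall_subset_ball hr
    refine Complex.norm_le_of_forall_mem_frontier_norm_le isBounded_ball hDC ?_
      (by rw [closure_ball _ one_ne_zero]; exact hw)
    intro z hz
    rw [frontier_ball _ one_ne_zero, mem_sphere_zero_iff_norm] at hz
    have e1 : exp (((arg z : ℝ) : ℂ) * I) = z := by
      have := Complex.norm_mul_exp_arg_mul_I z
      rwa [hz, ofReal_one, one_mul] at this
    rw [← e1, cm m hm]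
    exact hC m hm _ (Complex.abs_arg_le_pi z)

end Pool.Agent.E8helper97.FV
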