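import Pool.Agent.E8helper4.FV.Stm2
import Pool.Agent.E8helper97.FV.K3a

/-!
# FV2, piece K3
-/

set_option autoImplicit false

open Complex MeasureTheory Metric Set Filter Topology ComplexConjugate
open Pool.Agent.Results.MP_83fd13_an.BranchSingularities (Solvable)

namespace Pool.Agent.E8helper97.FV

open Pool.Agent.E8helper4.FV (xx xd kp hh K1 K1b K2 K3)
open Pool.Agent.Y245.SC (Zf Fc seg ker Strip IOne ITwo SerProp t_KAP t_SEG t_PAR t_NZ)
open Pool.Agent.Y458.SC (Str Ann diff_ann eq_exp)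

/-- the library extension of `Zf`, up to the radius `r` -/
theorem zf_ext (φ : ℂ → ℂ) (r lam : ℝ) (hr : 1 < r) (hφ : DifferentiableOn ℂ φ (ball 0 r))
    (hinj : InjOn φ (ball 0 r)) (hlam : 0 < lam) (hS : Solvable (φ '' ball 0 1) lam) :
    ∃ G : ℂ → ℂ, DifferentiableOn ℂ G (ball 0 r) ∧
      ∀ t : ℝ, G (exp ((t : ℂ) * I)) = Zf (lam / 4) φ ((t : ℂ) * I) := by
  obtain ⟨c, u, G, hu, hG, h1, h2, hu0⟩ := hS
  have hSol : Pool.Agent.TH298.Sch.Sol (φ '' ball 0 1) lam c u G := ⟨hu, hG, h1, h2⟩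
  have hcont : ContinuousOn φ (closedBall 0 1) :=
    (hφ.continuousOn).mono (closedBall_subset_ball hr)
  have hb' : Bornology.IsBounded (φ '' ball 0 1) :=
    ((isCompact_closedBall (0 : ℂ) 1).image_of_continuousOn hcont).isBounded.subset
      (image_mono ball_subset_closedBall)
  have hm' : MeasurableSet (φ '' ball 0 1) :=
    (isOpen_ball.measurableSet).image_of_continuousOn_injOn
      (hcont.mono ball_subset_closedBall) (hinj.mono (ball_subset_ball hr.le))
  have hc : c ≠ 0 := hSol.c_ne hb' hm' hlam hu0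
  have hR0 : 0 < r := by linarith
  have hℓ : 0 < Real.log r := Real.log_pos hr
  have hexp : Real.exp (Real.log r) = r := Real.exp_log hR0
  have ha : 0 < lam / 4 := by positivity
  have hser : SerProp (lam / 4) r φ :=
    Pool.Agent.Y975.SC.Ser.ser Pool.Agent.Y50.SC.disc Pool.Agent.Y287.SC.chg
      Pool.Agent.Y287.SC.weak (Pool.Agent.Y281.SC.vek t_NZ) φ r lam c u G hr hlam hc hφ hinj hSol
  have i1 : IOne (lam / 4) φ := Pool.Agent.Y257.SC.ione t_KAP φ r _ hr ha hφ hser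
  have i2 : ITwo (lam / 4) φ :=
    Pool.Agent.Y257.SC.itwo t_SEG t_KAP φ r _ hr ha hφ (t_NZ φ r hφ hinj) hser
  have hφ' : DifferentiableOn ℂ φ (ball 0 (Real.exp (Real.log r))) := by rw [hexp]; exact hφ
  have z1 := Pool.Agent.Y657.SC.zhol t_KAP t_PAR φ (lam / 4) (Real.log r) ha hℓ hφ'
  have z2 := Pool.Agent.Y532.SC.zper t_KAP t_SEG φ (lam / 4) (Real.log r) ha hℓ hφ' i1
  have z3 := Pool.Agent.Y664.SC.zmom t_KAP t_SEG φ (lam / 4) (Real.log r) ha hℓ hφ' i1 i2
  obtain ⟨G', hG', hZ⟩ := Pool.Agent.Y458.SC.t_EXT (Zf (lam / 4) φ) (Real.log r) hℓ z1 z2 z3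
  classical
  refine ⟨fun w => if ‖w‖ < 1 then G' w else Zf (lam / 4) φ (log w), ?_, ?_⟩
  · intro w hw
    rw [mem_ball_zero_iff] at hw
    rcases lt_or_ge ‖w‖ 1 with h | h
    · have h3 : DifferentiableAt ℂ G' w :=
        hG'.differentiableAt (isOpen_ball.mem_nhds (by rwa [mem_ball_zero_iff]))
      refine (h3.congr_of_eventuallyEq ?_).differentiableWithinAt
      have h4 : ∀ᶠ z in 𝓝 w, ‖z‖ < 1 := (isOpen_lt continuous_norm continuous_const).mem_nhds h
      filter_upwards [h4] with z hz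
      rw [if_pos hz]
    · have hA : w ∈ Ann (Real.log r) := by
        refine ⟨?_, by rw [hexp]; exact hw⟩
        rw [Real.exp_neg, hexp]
        exact (inv_lt_one_of_one_lt₀ hr).trans_le h
      have h3 := diff_ann z1 z2 hA
      refine (h3.congr_of_eventuallyEq ?_).differentiableWithinAt
      filter_upwards [(Pool.Agent.Y458.SC.isOpen_ann _).mem_nhds hA] with z hz
      by_cases h5 : ‖z‖ < 1
      · rw [if_pos h5]
        have hz0 : z ≠ 0 := Pool.Agent.Y458.SC.ann_ne hz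
        have h6 := Pool.Agent.Y458.SC.log_mem hz
        have h7 : (log z).re < 0 := by
          rw [Complex.log_re]
          exact Real.log_neg (norm_pos_iff.2 hz0) h5
        rw [hZ (log z) h6.1 h7, exp_log hz0]
      · rw [if_neg h5]
  · intro t
    have h3 : ‖exp ((t : ℂ) * I)‖ = 1 := Complex.norm_exp_ofReal_mul_I t
    have h4 : ¬ ‖exp ((t : ℂ) * I)‖ < 1 := by rw [h3]; exact lt_irrefl 1
    change (if ‖exp ((t : ℂ) * I)‖ < 1 then G' (exp ((t : ℂ) * I)) else
      Zf (lam / 4) φ (log (exp ((t : ℂ) * I)))) = _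
    rw [if_neg h4]
    refine eq_exp z2 ?_ (exp_log (exp_ne_zero _))
    constructor
    · simpa using hℓ
    · simpa using hℓ

/-- the value of `Zf` on the imaginary axis -/
theorem zf_val (φ : ℂ → ℂ) (a : ℝ) (ha : 0 < a) (hk : K1b) (t : ℝ) :
    (a : ℂ) * Zf a φ ((t : ℂ) * I) = (a : ℂ) * conj (xx φ t) + hh a φ (-2) t := by
  have hF : ∀ s : ℝ, Fc φ ((s : ℂ) * I) = conj (xx φ s) := by
    intro s
    unfold Fc xx
    congr 3
    rw [map_mul, conj_ofReal, conj_I]
    ring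
  have h1 : seg (fun ω => ker a φ ω ((t : ℂ) * I) (Fc φ ω)) 0 ((t : ℂ) * I) =
      ∫ s in (0 : ℝ)..t, ker a φ ((s : ℂ) * I) ((t : ℂ) * I) (Fc φ ((s : ℂ) * I)) * I := by
    unfold seg
    have h2 := intervalIntegral.smul_integral_comp_mul_right (a := 0) (b := 1)
      (fun s : ℝ => ker a φ ((s : ℂ) * I) ((t : ℂ) * I) (Fc φ ((s : ℂ) * I)) * I) t
    rw [zero_mul, one_mul, ← intervalIntegral.integral_smul] at h2
    rw [← h2]
    refine intervalIntegral.integral_congr fun s _ => ?_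
    simp only [sub_zero, zero_add, real_smul]
    have e1 : (s : ℂ) * ((t : ℂ) * I) = ((s * t : ℝ) : ℂ) * I := by push_cast; ring
    rw [e1]
    ring
  unfold Zf
  rw [hF, h1, mul_sub, sub_eq_add_neg, ← mul_neg, ← intervalIntegral.integral_neg,
    ← intervalIntegral.integral_const_mul]
  congr 1
  unfold hh
  refine intervalIntegral.integral_congr fun s _ => ?_
  have h3 := hk.2.2.2.2 a (xx φ t - xx φ s) (conj (xx φ s)) ha
  rw [← h3, hF]
  unfold Pool.Agent.Y245.SC.ker xd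
  have e2 : conj (xx φ s) * (φ (exp ((s : ℂ) * I)) - φ (exp ((t : ℂ) * I))) =
      conj (xx φ s) * -(xx φ t - xx φ s) := by
    unfold xx
    ring
  rw [e2]
  ring

theorem k3 : K3 := by
  intro hK1 hK1b hK2 φ r lam hr hφ hinj hlam hS
  obtain ⟨G, hG, hGv⟩ := zf_ext φ r lam hr hφ hinj hlam hS
  have hnz := t_NZ φ r hφ hinj
  have ha : 0 < lam / 4 := by positivity
  have hk2 := hK2 hK1
  refine k3_core φ r (lam / 4) hr hφ hnz (hh (lam / 4) φ)
    (fun m t => kp m 0 (((lam / 4 : ℝ) : ℂ) * conj (xx φ t)))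
    (fun w => ((lam / 4 : ℝ) : ℂ) * G w) (hG.const_mul _) ?_ ?_ ?_ ?_ ?_ ?_ ?_ ?_
  · intro t
    rw [hGv, zf_val φ (lam / 4) ha hK1b]
    rfl
  · intro m t
    exact hk2 φ r (lam / 4) hr hφ m t
  · intro m
    unfold hh
    exact intervalIntegral.integral_same
  · intro m hm t
    exact hK1b.2.2.1 m hm _
  · intro t
    exact (hK1b.2.1 _).1
  · intro t
    exact (hK1b.2.1 _).2.1
  · intro t
    exact (hK1b.2.1 _).2.2
  · -- uniform bound
    have hs : sphere (0 : ℂ) 1 ⊆ ball (0 : ℂ) r := fun z hz => by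
      rw [mem_sphere_zero_iff_norm] at hz
      rw [mem_ball_zero_iff, hz]
      exact hr
    obtain ⟨B, hB⟩ := (isCompact_sphere (0 : ℂ) 1).exists_bound_of_continuousOn
      (hφ.continuousOn.mono hs)
    obtain ⟨D, hD⟩ := (isCompact_sphere (0 : ℂ) 1).exists_bound_of_continuousOn
      ((hφ.deriv isOpen_ball).continuousOn.mono hs)
    have hmem : ∀ s : ℝ, exp ((s : ℂ) * I) ∈ sphere (0 : ℂ) 1 := fun s => by
      rw [mem_sphere_zero_iff_norm, Complex.norm_exp_ofReal_mul_I]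
    have hxx : ∀ s : ℝ, ‖xx φ s‖ ≤ B := fun s => hB _ (hmem s)
    have hxd : ∀ s : ℝ, ‖xd φ s‖ ≤ D := fun s => by
      unfold xd
      rw [norm_mul, norm_mul, norm_I, Complex.norm_exp_ofReal_mul_I, one_mul, one_mul]
      exact hD _ (hmem s)
    have hD0 : 0 ≤ D := (norm_nonneg _).trans (hxd 0)
    refine ⟨Real.exp (2 * B + (lam / 4) * B) * D * Real.pi, fun m _ t ht => ?_⟩
    unfold hh
    have h5 : ∀ s ∈ Set.uIoc (0 : ℝ) t,
        ‖kp m (xx φ t - xx φ s) (((lam / 4 : ℝ) : ℂ) * conj (xx φ s)) * xd φ s‖ ≤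
          Real.exp (2 * B + (lam / 4) * B) * D := by
      intro s _
      rw [norm_mul]
      refine mul_le_mul ?_ (hxd s) (norm_nonneg _) (Real.exp_pos _).le
      refine ((hK1 m).2.2.2.1 _ _).trans (Real.exp_le_exp.2 ?_)
      refine add_le_add ?_ ?_
      · refine (norm_sub_le _ _).trans ?_
        linarith [hxx t, hxx s]
      · rw [norm_mul, RCLike.norm_conj, Complex.norm_real, Real.norm_eq_abs, abs_of_pos ha]
        exact mul_le_mul_of_nonneg_left (hxx s) ha.le
    refine (intervalIntegral.norm_integral_le_of_norm_le_const h5).trans ?_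
    rw [sub_zero]
    exact mul_le_mul_of_nonneg_left ht (mul_nonneg (Real.exp_pos _).le hD0)

end Pool.Agent.E8helper97.FV
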